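import Mathlib
import Pool.Agent.H44Sp.M

/-!
# Spectral measures of the groups `G_ω` are separated by tame common prefixes

`gen ω s`, `E ω u`, `closedWords ω k` (from `Pool.Agent.H44Sp.A`) are the generators
`a, b_ω, c_ω, d_ω` acting on finite words, the product of generators named by a word `u`, and the
number of words of length `k` whose product is the identity; `NC ω` says that `ω` is not eventually
constant, and `NCfrom n ω` that it is not constant from the position `n` on.
-/

namespace Pool.Agent.Results.MP_2e40ce_al.Rigidity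

open Function Pool.Agent.H44Sp

lemma exists_perm (x y : Fin 3) (h : x ≠ y) : ∃ π : Equiv.Perm (Fin 3), π 0 = x ∧ π 1 = y := by
  set z := Equiv.swap 0 x 1 with hz
  have hzx : x ≠ z := by
    intro e
    have : Equiv.swap 0 x 0 = Equiv.swap 0 x 1 := by rw [Equiv.swap_apply_left]; exact e
    exact absurd ((Equiv.swap 0 x).injective this) (by decide)
  refine ⟨(Equiv.swap 0 x).trans (Equiv.swap z y), ?_, ?_⟩
  · rw [Equiv.trans_apply, Equiv.swap_apply_left, Equiv.swap_apply_of_ne_of_ne hzx h]
  · rw [Equiv.trans_apply, ← hz, Equiv.swap_apply_left]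

lemma NC_perm {ω : ℕ → Fin 3} (h : NC ω) (π : Equiv.Perm (Fin 3)) : NC (fun i => π (ω i)) := by
  intro n c
  obtain ⟨i, hi, h2⟩ := h n (π.symm c)
  refine ⟨i, hi, fun e => h2 ?_⟩
  rw [← e, Equiv.symm_apply_apply]

lemma generic_of_NC {ω : ℕ → Fin 3} (h : NC ω) : Sym.Generic ω := by
  intro n hn
  obtain ⟨i, hi, h2⟩ := h n (ω n)
  exact absurd (hn i hi) h2

lemma symbols_eq_of_closed {ω ω' : ℕ → Fin 3} (h : NC ω) (h' : NC ω')
    (heq : ∀ k, closedWords ω k = closedWords ω' k) (n : ℕ) :
    ((Finset.range n).image ω).card = ((Finset.range n).image ω').card :=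
  (Sym.profile ω ω' (generic_of_NC h) (generic_of_NC h')).2 (fun k => heq k) n

/-- `ω` is not constant from the position `n` on -/
def NCfrom (n : ℕ) (ω : ℕ → Fin 3) : Prop := ∀ c, ∃ i ≥ n, ω i ≠ c

lemma NC_from {ω : ℕ → Fin 3} (h : NC ω) (n : ℕ) : NCfrom n ω := h n

lemma NCfrom_sh {n : ℕ} {ω : ℕ → Fin 3} (h : NCfrom (n + 1) ω) : NCfrom n (sh ω) := by
  intro c
  obtain ⟨i, hi, h2⟩ := h c
  obtain ⟨j, rfl⟩ : ∃ j, i = j + 1 := ⟨i - 1, by omega⟩
  exact ⟨j, by omega, h2⟩

lemma NCfrom_mono {m n : ℕ} {ω : ℕ → Fin 3} (h : NCfrom n ω) (hm : m ≤ n) : NCfrom m ω := by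
  intro c
  obtain ⟨i, hi, h2⟩ := h c
  exact ⟨i, by omega, h2⟩

lemma NCfrom_perm {n : ℕ} {ω : ℕ → Fin 3} (h : NCfrom n ω) (π : Equiv.Perm (Fin 3)) :
    NCfrom n (fun i => π (ω i)) := by
  intro c
  obtain ⟨i, hi, h2⟩ := h (π.symm c)
  refine ⟨i, hi, fun e => h2 ?_⟩
  rw [← e, Equiv.symm_apply_apply]

lemma gp_ne_one' {s : Fin 4} (hs : s ≠ 0) : ∀ i (ω : ℕ → Fin 3), (ω i).val ≠ 3 - s.val →
    gp ω s ≠ 1 := by
  intro i
  induction i with
  | zero =>
    intro ω hi h1
    have := congrArg (fun g => g [false, false]) h1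
    simp only [gp_apply, gen_false ω hs, if_neg hi, Equiv.Perm.coe_one, id] at this
    simp at this
  | succ i ih =>
    intro ω hi h1
    apply ih (sh ω) hi
    ext1 w
    have := congrArg (fun g => g (true :: w)) h1
    simp only [gp_apply, gen_true ω hs, Equiv.Perm.coe_one, id] at this
    exact List.tail_eq_of_cons_eq this

lemma gp_ne_one'' {ω : ℕ → Fin 3} (h : NCfrom 0 ω) (s : Fin 4) : gp ω s ≠ 1 := by
  by_cases hs : s = 0
  · subst hs
    intro h1
    have := congrArg (fun g => g [false]) h1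
    simp [gen_zero] at this
  · obtain ⟨i, _, hi⟩ := h ⟨3 - s.val, by
      have : s.val ≠ 0 := fun h0 => hs (Fin.ext h0)
      omega⟩
    apply gp_ne_one' hs i ω
    intro h2
    exact hi (Fin.ext h2)

lemma alt_two_ne' {ω : ℕ → Fin 3} (h : NCfrom 0 ω) (x y : Fin 4) (hx : x ≠ 0) (hy : y ≠ 0) :
    W ω (altL [x, y]) ≠ 1 := by
  rw [Ne, W_altL_iff ω [x, y] (by simp)
    (by intro z hz; simp at hz; rcases hz with rfl | rfl <;> assumption)]
  rintro ⟨h1, h2⟩
  have e1 : c1 (ω 0) [x, y] = x :: ph (ω 0) y := by simp [c1]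
  have e2 : c2 (ω 0) [x, y] = ph (ω 0) x ++ [y] := by simp [c2]
  rw [e1] at h1
  rw [e2] at h2
  unfold ph at h1 h2
  by_cases sy : (ω 0).val = 3 - y.val
  · by_cases sx : (ω 0).val = 3 - x.val
    · rw [if_pos sy] at h1
      simp at h1
      obtain ⟨i, _, hi⟩ := h (ω 0)
      have hi0 : i ≠ 0 := by rintro rfl; exact hi rfl
      obtain ⟨j, rfl⟩ : ∃ j, i = j + 1 := ⟨i - 1, by omega⟩
      refine gp_ne_one' hx j (sh ω) ?_ h1
      show (ω (j + 1)).val ≠ 3 - x.val
      rw [← sx]
      exact fun e => hi (Fin.ext e)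
    · rw [if_neg sx] at h2
      refine W_ne_one_of_odd (sh ω) _ ?_ h2
      rw [List.count_append, List.count_cons_self,
        List.count_cons_of_ne (by simpa using hy)]
      simp
  · rw [if_neg sy] at h1
    refine W_ne_one_of_odd (sh ω) [x, 0] ?_ h1
    rw [List.count_cons_of_ne (by simpa using hx)]
    simp

/-- Short words do not see the digits from the `n`-th on (sequences not constant from there). -/
lemma short_words' (n : ℕ) : ∀ (N : ℕ) (ω ω' : ℕ → Fin 3), NCfrom n ω → NCfrom n ω' →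
    (∀ i < n, ω i = ω' i) → ∀ u : List (Fin 4), u.length = N → N < 2 ^ (n + 3) →
    (W ω u = 1 ↔ W ω' u = 1) := by
  induction n with
  | zero =>
    intro N
    induction N using Nat.strong_induction_on with
    | _ N ih =>
      intro ω ω' h h' hag u hu hN
      rcases eq_or_ne u [] with rfl | hne
      · simp
      rcases normal u hne with ⟨u', h1, h2⟩ | ⟨s, rfl⟩ | ⟨xs, hxs, h1, h2⟩
      · rw [h2, h2]
        exact ih u'.length (by omega) ω ω' h h' hag u' rfl (by omega)
      · simp only [W_cons, W_nil, mul_one]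
        exact iff_of_false (gp_ne_one'' h s) (gp_ne_one'' h' s)
      · rw [h2, h2]
        have hl : xs.length < 4 := by norm_num at hN; omega
        match xs, hxs, hl with
        | [], _, _ => simp
        | [x], hxs, _ =>
          exact iff_of_false (W_ne_one_of_odd _ _ (by rw [count_altL _ hxs]; simp))
            (W_ne_one_of_odd _ _ (by rw [count_altL _ hxs]; simp))
        | [x, y], hxs, _ =>
          exact iff_of_false (alt_two_ne' h x y (hxs x (by simp)) (hxs y (by simp)))
            (alt_two_ne' h' x y (hxs x (by simp)) (hxs y (by simp)))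
        | [x, y, z], hxs, _ =>
          exact iff_of_false (W_ne_one_of_odd _ _ (by rw [count_altL _ hxs]; simp))
            (W_ne_one_of_odd _ _ (by rw [count_altL _ hxs]; simp))
        | x :: y :: z :: t :: r, _, hl => simp only [List.length_cons] at hl; omega
  | succ n ihn =>
    intro N
    induction N using Nat.strong_induction_on with
    | _ N ih =>
      intro ω ω' h h' hag u hu hN
      rcases eq_or_ne u [] with rfl | hne
      · simp
      rcases normal u hne with ⟨u', h1, h2⟩ | ⟨s, rfl⟩ | ⟨xs, hxs, h1, h2⟩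
      · rw [h2, h2]
        exact ih u'.length (by omega) ω ω' h h' hag u' rfl (by omega)
      · simp only [W_cons, W_nil, mul_one]
        exact iff_of_false (gp_ne_one'' (NCfrom_mono h (by omega)) s)
          (gp_ne_one'' (NCfrom_mono h' (by omega)) s)
      · rw [h2, h2]
        rcases Nat.mod_two_eq_zero_or_one xs.length with he | ho
        · rw [W_altL_iff ω xs he hxs, W_altL_iff ω' xs he hxs, ← hag 0 (by omega)]
          have hlen := length_c (ω 0) (xs.length / 2) xs (by omega)
          have hp : 2 ^ (n + 1 + 3) = 2 * 2 ^ (n + 3) := by ring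
          have hag' : ∀ i < n, sh ω i = sh ω' i := fun i hi => hag (i + 1) (by omega)
          rw [ihn _ (sh ω) (sh ω') (NCfrom_sh h) (NCfrom_sh h') hag' _ rfl (by omega),
            ihn _ (sh ω) (sh ω') (NCfrom_sh h) (NCfrom_sh h') hag' (c2 (ω 0) xs) rfl (by omega)]
        · exact iff_of_false (W_ne_one_of_odd _ _ (by rw [count_altL _ hxs]; exact ho))
            (W_ne_one_of_odd _ _ (by rw [count_altL _ hxs]; exact ho))

/-- counts of short words only depend on the first symbols -/
lemma closed_congr {m : ℕ} {ω ω' : ℕ → Fin 3} (h : NCfrom m ω) (h' : NCfrom m ω')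
    (hag : ∀ i < m, ω i = ω' i) {L : ℕ} (hL : L < 2 ^ (m + 3)) :
    closedWords ω L = closedWords ω' L := by
  unfold closedWords
  apply Nat.card_congr
  apply Equiv.subtypeEquivRight
  intro u
  constructor
  · rintro ⟨h1, h2⟩
    refine ⟨h1, ?_⟩
    rw [E_eq_id] at h2 ⊢
    exact (short_words' m L ω ω' h h' hag u h1 hL).1 h2
  · rintro ⟨h1, h2⟩
    refine ⟨h1, ?_⟩
    rw [E_eq_id] at h2 ⊢
    exact (short_words' m L ω ω' h h' hag u h1 hL).2 h2

lemma pair_ne {ω ω' : ℕ → Fin 3} {a k n N : ℕ} (hN : NC ω) (hN' : NC ω')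
    (hmin : ∀ i < N, ω i = ω' i) (a0 : ∀ i < a, ω i = 0) (ha : 1 ≤ a) (hNa : a < N)
    (hkn : n + 1 + k = N - a) (hG : Good k (n + 1) (sh^[a] ω) (sh^[a] ω')) (h1 : ω a = 1) :
    closedWords ω (2 ^ (N + 3)) ≠ closedWords ω' (2 ^ (N + 3)) := by
  have h1 : (sh^[a] ω) 0 = 1 := by
    rw [sh_iter]; show ω (0 + a) = 1; rw [zero_add]; exact h1
  have hzero : ∀ i < a - 1, sh ω i = 0 ∧ sh ω' i = 0 := by
    intro i hi
    have : ω (i + 1) = 0 := a0 (i + 1) (by omega)
    exact ⟨this, by show ω' (i + 1) = 0; rw [← hmin (i + 1) (by omega)]; exact this⟩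
  have hit : ∀ ω : ℕ → Fin 3, sh^[a] ω = sh^[a - 1] (sh ω) := by
    intro ω
    rw [← iterate_succ_apply]
    congr 1; omega
  have hag : ∀ i < (n + 1 + k + (a - 1)) + 1, ω i = ω' i := fun i hi => hmin i (by omega)
  have hN1 : N = n + 1 + k + (a - 1) + 1 := by omega
  rw [hN1]
  rcases Nat.eq_zero_or_pos n with rfl | hn
  · have hLS := LS_B hG
    rw [hit ω, hit ω'] at hLS
    have := LS_iter (by norm_num) (a - 1) (sh ω) (sh ω') hzero hLS
    rw [show 2 + (a - 1) = (a - 1 + 1) + 1 by ring] at this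
    exact top_ne hN hN' hag (a0 0 (by omega)) (by omega) this
  · have hLS := LS_A hG h1 hn
    rw [hit ω, hit ω'] at hLS
    have := LS_iter (by omega) (a - 1) (sh ω) (sh ω') hzero hLS
    rw [show n + 1 + (a - 1) = (n + (a - 1)) + 1 by ring] at this
    exact top_ne hN hN' hag (a0 0 (by omega)) (by omega) this

/-- the tail used for truncation -/
def tl (i : ℕ) : Fin 3 := if i % 2 = 0 then 0 else 1

/-- truncation -/
def cut (N : ℕ) (ω : ℕ → Fin 3) (i : ℕ) : Fin 3 := if i ≤ N then ω i else tl i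

lemma cut_NC (N : ℕ) (ω : ℕ → Fin 3) : NC (cut N ω) := by
  intro n c
  by_cases hc : c = 0
  · refine ⟨2 * (N + n) + 1, by omega, ?_⟩
    unfold cut tl
    rw [if_neg (by omega), if_neg (by omega), hc]
    decide
  · refine ⟨2 * (N + n + 1), by omega, ?_⟩
    unfold cut tl
    rw [if_neg (by omega), if_pos (by omega)]
    exact fun h => hc h.symm

lemma cut_ne2 {N : ℕ} {ω : ℕ → Fin 3} (h : ∀ i ≤ N, ω i ≠ 2) (i : ℕ) : cut N ω i ≠ 2 := by
  unfold cut tl
  split_ifs with h1 h2
  · exact h i h1
  · decide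
  · decide

lemma cut_eq {N : ℕ} {ω : ℕ → Fin 3} {i : ℕ} (h : i ≤ N) : cut N ω i = ω i := if_pos h

/-- two-letter case of (B) -/
lemma pairs01 {ω ω' : ℕ → Fin 3} {N a c : ℕ} (hN : NCfrom (N + 1) ω)
    (hN' : NCfrom (N + 1) ω') (ha : 1 ≤ a) (hac : a < c)
    (hcN : c ≤ N) (hag : ∀ i < N, ω i = ω' i) (h1 : ω N = 1) (h0 : ω' N = 0)
    (a0 : ∀ i < a, ω i = 0) (a1 : ω a = 1) (c1 : ω (c - 1) = 1) (h01 : ∀ i < c, ω i = 0 ∨ ω i = 1)
    (hr : ∀ i, a ≤ i → i + 1 < c → ω i = 0 → ω (i + 1) = 1)
    (hz : ∀ i, c ≤ i → i < N → ω i = 0) :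
    closedWords ω (2 ^ (N + 3)) ≠ closedWords ω' (2 ^ (N + 3)) := by
  have hlt : 2 ^ (N + 3) < 2 ^ (N + 1 + 3) := Nat.pow_lt_pow_right (by norm_num) (by omega)
  have hd : ∀ i < N, ω i ≠ 2 := by
    intro i hi
    by_cases hc : i < c
    · rcases h01 i hc with h | h <;> rw [h] <;> decide
    · rw [hz i (by omega) hi]; decide
  have hd1 : ∀ i ≤ N, ω i ≠ 2 := by
    intro i hi
    rcases Nat.lt_or_ge i N with h | h
    · exact hd i h
    · have : i = N := by omega
      rw [this, h1]; decide
  have hd2 : ∀ i ≤ N, ω' i ≠ 2 := by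
    intro i hi
    rcases Nat.lt_or_ge i N with h | h
    · rw [← hag i h]; exact hd i h
    · have : i = N := by omega
      rw [this, h0]; decide
  rw [closed_congr (m := N + 1) hN (NC_from (cut_NC N ω) _) (fun i hi => (cut_eq (by omega)).symm) hlt,
    closed_congr (m := N + 1) hN' (NC_from (cut_NC N ω') _) (fun i hi => (cut_eq (by omega)).symm)
      hlt]
  apply pair_ne (a := a) (k := N - c) (n := c - a - 1) (cut_NC N ω) (cut_NC N ω')
  · intro i hi
    rw [cut_eq (by omega), cut_eq (by omega)]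
    exact hag i hi
  · intro i hi
    rw [cut_eq (by omega)]
    exact a0 i hi
  · exact ha
  · omega
  · omega
  · constructor
    · exact NC_iter (cut_NC N ω) a
    · exact NC_iter (cut_NC N ω') a
    · intro i hi
      rw [sh_iter, sh_iter]
      show cut N ω (i + a) = cut N ω' (i + a)
      rw [cut_eq (by omega), cut_eq (by omega)]
      exact hag _ (by omega)
    · rw [sh_iter]
      show cut N ω (c - a - 1 + 1 + (N - c) + a) = 1
      rw [show c - a - 1 + 1 + (N - c) + a = N by omega, cut_eq le_rfl]; exact h1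
    · rw [sh_iter]
      show cut N ω' (c - a - 1 + 1 + (N - c) + a) = 0
      rw [show c - a - 1 + 1 + (N - c) + a = N by omega, cut_eq le_rfl]; exact h0
    · intro i; rw [sh_iter]; exact cut_ne2 hd1 _
    · intro i; rw [sh_iter]; exact cut_ne2 hd2 _
    · intro i h3 h4
      rw [sh_iter]
      show cut N ω (i + a) = 0
      rw [cut_eq (by omega)]
      exact hz _ (by omega) (by omega)
    · intro m hm
      rw [sh_iter]
      show cut N ω (m + a) = 1
      rw [cut_eq (by omega), show m + a = c - 1 by omega]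
      exact c1
    · intro i hi hzz
      rw [sh_iter] at hzz ⊢
      show cut N ω (i + 1 + a) = 1
      have hzz' : cut N ω (i + a) = 0 := hzz
      rw [cut_eq (by omega)] at hzz'
      by_cases h6 : i + 1 + a < c
      · rw [cut_eq (by omega), show i + 1 + a = i + a + 1 by ring]
        exact hr (i + a) (by omega) (by omega) hzz'
      · have : i + a = c - 1 := by omega
        rw [this, c1] at hzz'
        exact absurd hzz' (by decide)
  · rw [cut_eq (by omega)]; exact a1

/-- The Cayley graphs of `G_ω` and `G_ω'` are isometric (the condition of the frozen statement):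
there is a bijection `φ` of the groups which preserves the word metrics. -/
def Isometric (ω ω' : ℕ → Fin 3) : Prop :=
  ∃ φ : (List Bool → List Bool) → (List Bool → List Bool),
    Set.BijOn φ {f | ∃ u, E ω u = f} {f | ∃ u, E ω' u = f} ∧
    ∀ f ∈ {f | ∃ u, E ω u = f}, ∀ g ∈ {f | ∃ u, E ω u = f}, ∀ n : ℕ,
      ((∃ u : List (Fin 4), u.length ≤ n ∧ f ∘ E ω u = g) ↔
       (∃ u : List (Fin 4), u.length ≤ n ∧ φ f ∘ E ω' u = φ g))

/-- Canonical form: the sequence starts with `0`, and `2` does not occur before the first `1`. -/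
def Canonical (ω : ℕ → Fin 3) : Prop := ω 0 = 0 ∧ ∀ i, ω i = 2 → ∃ j < i, ω j = 1

/-- The prefix of length `N` of `ω` is tame: it does not contain the symbol `2`, and it has no two
consecutive `0`s between two `1`s. -/
def Tame (ω : ℕ → Fin 3) (N : ℕ) : Prop :=
  (∀ i < N, ω i ≠ 2) ∧
  ∀ j i l, j < i → i + 1 < l → l < N → ω j = 1 → ω l = 1 → ¬ (ω i = 0 ∧ ω (i + 1) = 0)

lemma isometric_perm (ω ω' : ℕ → Fin 3) (σ : Equiv.Perm (Fin 3)) (h : ∀ i, ω' i = σ (ω i)) :
    Isometric ω ω' := by
  have hω : ω' = fun i => σ (ω i) := funext h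
  have h1 : ∀ u, E ω' u = E ω (u.map (hat σ)) := by
    intro u; rw [hω]; exact E_hat σ ω u
  have hbij : Function.Bijective (hat σ) := (Finite.injective_iff_bijective).1 (hat_inj σ)
  obtain ⟨g, hg1, hg2⟩ := Function.bijective_iff_has_inverse.1 hbij
  have h2 : ∀ u, E ω u = E ω' (u.map g) := by
    intro u
    rw [h1, List.map_map]
    have : hat σ ∘ g = id := funext hg2
    rw [this, List.map_id]
  refine ⟨id, ⟨?_, Function.injective_id.injOn, ?_⟩, ?_⟩
  · rintro f ⟨u, rfl⟩
    exact ⟨u.map g, (h2 u).symm⟩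
  · rintro f ⟨u, rfl⟩
    exact ⟨E ω' u, ⟨u.map (hat σ), (h1 u).symm⟩, rfl⟩
  · intro f _ f' _ n
    constructor
    · rintro ⟨u, hu, he⟩
      exact ⟨u.map g, by rw [List.length_map]; exact hu, by rw [← h2]; exact he⟩
    · rintro ⟨u, hu, he⟩
      exact ⟨u.map (hat σ), by rw [List.length_map]; exact hu, by rw [← h1]; exact he⟩

lemma canonical_exists (ω : ℕ → Fin 3) : ∃ π : Equiv.Perm (Fin 3), Canonical fun i => π (ω i) := by
  classical
  by_cases hex : ∃ i, ω i ≠ ω 0
  · set a := Nat.find hex with ha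
    have ha1 : ω a ≠ ω 0 := Nat.find_spec hex
    have ha0 : ∀ i < a, ω i = ω 0 := fun i hi => not_not.1 (Nat.find_min hex hi)
    obtain ⟨π, p0, p1⟩ := exists_perm (ω 0) (ω a) ha1.symm
    have hs0 : π.symm (ω 0) = 0 := by rw [← p0, Equiv.symm_apply_apply]
    have hs1 : π.symm (ω a) = 1 := by rw [← p1, Equiv.symm_apply_apply]
    refine ⟨π.symm, hs0, fun i hi => ⟨a, ?_, hs1⟩⟩
    have hi' : π.symm (ω i) = 2 := hi
    rcases Nat.lt_trichotomy i a with h | h | h
    · rw [ha0 i h, hs0] at hi'; exact absurd hi' (by decide)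
    · rw [h, hs1] at hi'; exact absurd hi' (by decide)
    · exact h
  · push Not at hex
    refine ⟨Equiv.swap (ω 0) 0, Equiv.swap_apply_left _ _, fun i hi => ?_⟩
    have hi' : Equiv.swap (ω 0) 0 (ω i) = 2 := hi
    rw [hex i, Equiv.swap_apply_left] at hi'
    exact absurd hi' (by decide)

lemma closed_mod {ω : ℕ → Fin 3} {N : ℕ} (h : NCfrom (N + 1) ω) :
    closedWords ω (2 ^ (N + 3)) % 4 = (10 + 2 * ((Finset.range (N + 1)).image ω).card) % 4 := by
  have hlt : 2 ^ (N + 3) < 2 ^ (N + 1 + 3) := Nat.pow_lt_pow_right (by norm_num) (by omega)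
  have e : (Finset.range (N + 1)).image ω = (Finset.range (N + 1)).image (cut N ω) := by
    apply Finset.image_congr
    intro i hi
    exact (cut_eq (Nat.lt_succ_iff.1 (Finset.mem_range.1 hi))).symm
  rw [closed_congr (m := N + 1) h (NC_from (cut_NC N ω) _) (fun i hi => (cut_eq (by omega)).symm) hlt,
    e]
  exact (Sym.profile (cut N ω) (cut N ω) (generic_of_NC (cut_NC N ω))
    (generic_of_NC (cut_NC N ω))).1 (N + 1)

/-- the case where both next symbols are old -/
lemma both_old {ω ω' : ℕ → Fin 3} {N : ℕ} (hN : NCfrom (N + 1) ω)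
    (hN' : NCfrom (N + 1) ω') (h00 : ω 0 = 0)
    (hag : ∀ i < N, ω i = ω' i) (h1 : ω N = 1) (h0 : ω' N = 0) (ht : Tame ω N)
    (hex : ∃ i, i < N ∧ ω i = 1) :
    closedWords ω (2 ^ (N + 3)) ≠ closedWords ω' (2 ^ (N + 3)) := by
  classical
  have v01 : ∀ i < N, ω i = 0 ∨ ω i = 1 := by
    intro i hi
    have h2 := ht.1 i hi
    revert h2
    generalize ω i = z
    revert z
    decide
  set a := Nat.find hex with ha
  obtain ⟨haN, ha1⟩ : a < N ∧ ω a = 1 := Nat.find_spec hex
  have ha0 : ∀ i < a, ω i = 0 := by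
    intro i hi
    rcases v01 i (by omega) with h | h
    · exact h
    · exact absurd ⟨by omega, h⟩ (Nat.find_min hex hi)
  have hapos : 1 ≤ a := by
    by_contra hlt
    have : a = 0 := by omega
    rw [this, h00] at ha1
    exact absurd ha1 (by decide)
  set b := Nat.findGreatest (fun i => ω i = 1) (N - 1) with hb
  have hb1 : ω b = 1 := Nat.findGreatest_spec (P := fun i => ω i = 1) (by omega : a ≤ N - 1) ha1
  have hbN : b ≤ N - 1 := Nat.findGreatest_le _
  have hab : a ≤ b := Nat.le_findGreatest (by omega) ha1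
  have hz : ∀ i, b + 1 ≤ i → i < N → ω i = 0 := by
    intro i h3 h4
    rcases v01 i h4 with h | h
    · exact h
    · exact absurd h
        (Nat.findGreatest_is_greatest (P := fun i => ω i = 1) (by omega : b < i) (by omega))
  apply pairs01 (a := a) (c := b + 1) hN hN' hapos (by omega) (by omega) hag h1 h0 ha0 ha1
    (by rw [Nat.add_sub_cancel]; exact hb1) (fun i hi => v01 i (by omega)) ?_ hz
  intro i h3 h4 h5
  have hia : a ≠ i := by
    rintro rfl
    rw [ha1] at h5
    exact absurd h5 (by decide)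
  rcases Nat.lt_or_ge (i + 1) b with h6 | h6
  · rcases v01 (i + 1) (by omega) with h | h
    · exact absurd ⟨h5, h⟩ (ht.2 a i b (by omega) h6 (by omega) ha1 hb1)
    · exact h
  · have : i + 1 = b := by omega
    rw [this]; exact hb1

lemma tame_congr {ω ω' : ℕ → Fin 3} {N : ℕ} (hag : ∀ i < N, ω i = ω' i) (ht : Tame ω N) :
    Tame ω' N := by
  refine ⟨fun i hi => by rw [← hag i hi]; exact ht.1 i hi, fun j i l h1 h2 h3 h4 h5 h6 => ?_⟩
  rw [← hag _ (by omega)] at h4 h5
  rw [← hag _ (by omega), ← hag _ (by omega)] at h6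
  exact ht.2 j i l h1 h2 h3 h4 h5 h6

/-- the main lemma -/
lemma canonical_ne {ω ω' : ℕ → Fin 3} {N : ℕ} (hN : NCfrom (N + 1) ω) (hN' : NCfrom (N + 1) ω')
    (hc : Canonical ω) (hc' : Canonical ω') (hag : ∀ i < N, ω i = ω' i) (hne : ω N ≠ ω' N) (ht : Tame ω N) :
    closedWords ω (2 ^ (N + 3)) ≠ closedWords ω' (2 ^ (N + 3)) := by
  classical
  have hNpos : 0 < N := by
    rcases Nat.eq_zero_or_pos N with rfl | h
    · exact absurd (hc.1.trans hc'.1.symm) hne
    · exact h
  have v01 : ∀ i < N, ω i = 0 ∨ ω i = 1 := by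
    intro i hi
    have h2 := ht.1 i hi
    revert h2
    generalize ω i = z
    revert z
    decide
  set S := (Finset.range N).image ω with hS
  have hS' : (Finset.range N).image ω' = S := by
    rw [hS]
    apply Finset.image_congr
    intro i hi
    exact (hag i (Finset.mem_range.1 hi)).symm
  have e1 : (Finset.range (N + 1)).image ω = insert (ω N) S := by
    rw [Finset.range_add_one, Finset.image_insert]
  have e2 : (Finset.range (N + 1)).image ω' = insert (ω' N) S := by
    rw [Finset.range_add_one, Finset.image_insert, hS']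
  have c1 := closed_mod hN
  have c2 := closed_mod hN'
  rw [e1] at c1
  rw [e2] at c2
  have hmem : ∀ z ∈ S, ∃ i, i < N ∧ ω i = z := by
    intro z hz
    obtain ⟨i, hi, rfl⟩ := Finset.mem_image.1 hz
    exact ⟨i, Finset.mem_range.1 hi, rfl⟩
  have hz01 : ∀ z ∈ S, z = 0 ∨ z = 1 := by
    intro z hz
    obtain ⟨i, hi, rfl⟩ := hmem z hz
    exact v01 i hi
  by_cases m1 : ω N ∈ S <;> by_cases m2 : ω' N ∈ S
  · rcases hz01 _ m1 with h | h <;> rcases hz01 _ m2 with h' | h'
    · exact absurd (h.trans h'.symm) hne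
    · have hex := hmem _ m2
      rw [h'] at hex
      obtain ⟨i, hi, hi1⟩ := hex
      exact (both_old hN' hN hc'.1 (fun i hi => (hag i hi).symm) h' h (tame_congr hag ht)
        ⟨i, hi, by rw [← hag i hi]; exact hi1⟩).symm
    · have hex := hmem _ m1
      rw [h] at hex
      exact both_old hN hN' hc.1 hag h h' ht hex
    · exact absurd (h.trans h'.symm) hne
  · intro h
    rw [Finset.insert_eq_of_mem m1] at c1
    rw [Finset.card_insert_of_notMem m2] at c2
    omega
  · intro h
    rw [Finset.insert_eq_of_mem m2] at c2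
    rw [Finset.card_insert_of_notMem m1] at c1
    omega
  · exfalso
    have h0S : (0 : Fin 3) ∈ S := by
      rw [hS, ← hc.1]
      exact Finset.mem_image_of_mem _ (Finset.mem_range.2 hNpos)
    have hno1 : (1 : Fin 3) ∉ S → ω N ≠ 2 ∧ ω' N ≠ 2 := by
      intro h1
      constructor
      · intro h2
        obtain ⟨j, hj, hj1⟩ := hc.2 N h2
        apply h1
        rw [← hj1]
        exact Finset.mem_image_of_mem _ (Finset.mem_range.2 hj)
      · intro h2
        obtain ⟨j, hj, hj1⟩ := hc'.2 N h2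
        apply h1
        rw [← hj1, ← hag j hj]
        exact Finset.mem_image_of_mem _ (Finset.mem_range.2 hj)
    have n0 : ω N ≠ 0 := fun h => m1 (by rw [h]; exact h0S)
    have n0' : ω' N ≠ 0 := fun h => m2 (by rw [h]; exact h0S)
    by_cases h1 : (1 : Fin 3) ∈ S
    · have n1 : ω N ≠ 1 := fun h => m1 (by rw [h]; exact h1)
      have n1' : ω' N ≠ 1 := fun h => m2 (by rw [h]; exact h1)
      revert hne n0 n0' n1 n1'
      generalize ω N = z
      generalize ω' N = z'
      revert z z'
      decide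
    · obtain ⟨n2, n2'⟩ := hno1 h1
      clear c1 c2 e1 e2 m1 m2
      revert hne n0 n0' n2 n2'
      generalize ω N = z
      generalize ω' N = z'
      revert z z'
      decide

/-- **Main theorem.** `closedWords ω k = 4 ^ k ·` (the `k`-th moment of the spectral measure of
`G_ω`), so two sequences have the same spectral measure iff all these numbers agree.

(1) Let `ω, ω'` be sequences, and let `η = π ∘ ω`, `η' = π' ∘ ω'` be their canonical forms (the
symbols renamed in the order of their first occurrence).  If `η = η'`, then the Cayley graphs of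
`G_ω` and `G_ω'` are isometric.  If `η, η'` agree before the position `N` and differ at `N`, if
their common prefix of length `N` is tame (it contains no `2`, and no two consecutive `0`s between
two `1`s), and if neither `ω` nor `ω'` is constant from the position `N + 1` on, then the spectral
measures are different; indeed the numbers of closed words of length `2 ^ (N + 3)` differ.

(2) In particular, if `ω` is a canonical sequence in the symbols `0, 1`, not eventually constant,
without two consecutive `0`s after the first `1`, then the question has a positive answer for the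
pair `ω, ω'`, for every sequence `ω'` that is not eventually constant. -/
theorem result :
    (∀ ω ω' : ℕ → Fin 3,
      ∃ π π' : Equiv.Perm (Fin 3),
        Canonical (fun i => π (ω i)) ∧ Canonical (fun i => π' (ω' i)) ∧
        ((∀ i, π (ω i) = π' (ω' i)) → Isometric ω ω') ∧
        ∀ N, (∀ i < N, π (ω i) = π' (ω' i)) → π (ω N) ≠ π' (ω' N) →
          Tame (fun i => π (ω i)) N → NCfrom (N + 1) ω → NCfrom (N + 1) ω' →
          closedWords ω (2 ^ (N + 3)) ≠ closedWords ω' (2 ^ (N + 3))) ∧
    (∀ ω ω' : ℕ → Fin 3, NC ω → NC ω' → Canonical ω → (∀ i, ω i ≠ 2) →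
      (∀ i j, j < i → ω j = 1 → ω i = 0 → ω (i + 1) ≠ 0) →
      ¬ Isometric ω ω' → ∃ k, closedWords ω k ≠ closedWords ω' k) := by
  classical
  refine ⟨?_, ?_⟩
  · intro ω ω'
    obtain ⟨π, hπ⟩ := canonical_exists ω
    obtain ⟨π', hπ'⟩ := canonical_exists ω'
    refine ⟨π, π', hπ, hπ', fun h => ?_, fun N hag hne ht hN hN' => ?_⟩
    · refine isometric_perm ω ω' (π.trans π'.symm) (fun i => ?_)
      rw [Equiv.trans_apply, h i, Equiv.symm_apply_apply]
    · have := canonical_ne (NCfrom_perm hN π) (NCfrom_perm hN' π') hπ hπ' hag hne ht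
      rw [closed_perm, closed_perm] at this
      exact this
  · intro ω ω' hN hN' hc h2 hr hiso
    obtain ⟨π', hπ'⟩ := canonical_exists ω'
    have hdiff : ∃ N, ω N ≠ π' (ω' N) := by
      by_contra hcon
      push Not at hcon
      apply hiso
      refine isometric_perm ω ω' π'.symm (fun i => ?_)
      rw [hcon i, Equiv.symm_apply_apply]
    have hfind := Nat.find_spec hdiff
    have hmin : ∀ i < Nat.find hdiff, ω i = π' (ω' i) :=
      fun i hi => not_not.1 (Nat.find_min hdiff hi)
    have ht : Tame ω (Nat.find hdiff) :=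
      ⟨fun i _ => h2 i, fun j i l h3 h4 h5 h6 h7 h8 => hr i j h3 h6 h8.1 h8.2⟩
    have := canonical_ne (NC_from hN _) (NC_from (NC_perm hN' π') _) hc hπ' hmin hfind ht
    rw [closed_perm π'] at this
    exact ⟨_, this⟩

end Pool.Agent.Results.MP_2e40ce_al.Rigidity
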